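import Pool.Agent.TH181.QV.Gen

/-!
# MP_ad39f2: plane curves through general chains of infinitely near points

A configuration is given by `n` chains. The `i`-th chain consists of a proper point of the plane,
followed by infinitely near points, each on the exceptional curve of the preceding one: first free
points, lying on a general germ, then satellite points in any pattern. Arbitrary multiplicities
are attached to all the points. It is shown that on a nonempty Zariski open set of configurations
there is no curve of degree `d` through the weighted configuration, as expected, as soon as the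
class of such curves is negative on one of the classes `√T * L - ∑ e_ik * E_ik`, where the `e_ik`
are the weights of monomial valuations with real slopes `t i ≥ 1` of sum `T ≥ 9`.
-/

set_option autoImplicit false

namespace Pool.Agent.Results.MP_ad39f2_ag.GeneralChains

open Finset

/-- The coefficients of a formal power series in two variables `x, Y` : `f j l` is the coefficient
of `x ^ j * Y ^ l`. -/
abbrev Series := ℕ → ℕ → ℂ

/-- The local equation of the form `F` at the point `(c 0 : c 1 : 1)` of the plane, in the formal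
coordinates `x` and `Y`, where the first affine coordinate is `c 0 + x` and the second one is
`c 1 + c 2 * x + c 3 * x ^ 2 + ... + Y`. So `Y = 0` is the germ given by the sequence `c`. -/
noncomputable def localEquation (c : ℕ → ℂ) (F : MvPolynomial (Fin 3) ℂ) : Series := fun j l =>
  PowerSeries.coeff j ((MvPolynomial.aeval
    (![Polynomial.C (PowerSeries.C (c 0) + PowerSeries.X),
       Polynomial.C (PowerSeries.mk fun k => c (k + 1)) + Polynomial.X,
       1] : Fin 3 → Polynomial (PowerSeries ℂ)) F).coeff l)

/-- The virtual transform `f (x, x * Y) / x ^ r`, in the chart of the blow-up of the origin with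
coordinates `x, Y / x`; there the exceptional curve is `x = 0`. -/
def blowX (r : ℕ) (f : Series) : Series := fun j l => if l ≤ j + r then f (j + r - l) l else 0

/-- The virtual transform `f (x * Y, Y) / Y ^ r`, in the chart of the blow-up of the origin with
coordinates `x / Y, Y`; there the exceptional curve is `Y = 0`. -/
def blowY (r : ℕ) (f : Series) : Series := fun j l => if j ≤ l + r then f j (l + r - j) else 0

/-- `f` has multiplicity at least `r` at the origin. -/
def Mult (r : ℕ) (f : Series) : Prop := ∀ j l : ℕ, j + l < r → f j l = 0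

/-- The curve `f` passes through the chain of infinitely near points given by the list, with
virtual multiplicities `r 0, r 1, ...`. The first point is the origin; the next point is the
origin of the chart `x, Y / x` when the list starts with `true`, and the origin of the chart
`x / Y, Y` when it starts with `false`; and so on, replacing the curve by its virtual transform.
The chain has one point more than the list has entries. -/
def Passes : List Bool → (ℕ → ℕ) → Series → Prop
  | [], r, f => Mult (r 0) f
  | true :: s, r, f => Mult (r 0) f ∧ Passes s (fun k => r (k + 1)) (blowX (r 0) f)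
  | false :: s, r, f => Mult (r 0) f ∧ Passes s (fun k => r (k + 1)) (blowY (r 0) f)

/-- The value, on the maximal ideal of the `k`-th point of the chain, of the monomial valuation
which takes the value `α` on `x` and `β` on `Y` (zero when the centre of the valuation does not
contain that point). -/
noncomputable def weight : List Bool → ℝ → ℝ → ℕ → ℝ
  | _, α, β, 0 => min α β
  | [], _, _, _ + 1 => 0
  | true :: s, α, β, k + 1 => weight s α (max (β - α) 0) k
  | false :: s, α, β, k + 1 => weight s (max (α - β) 0) β k

/-! ### linearity -/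

theorem localEquation_add (c : ℕ → ℂ) (F G : MvPolynomial (Fin 3) ℂ) :
    localEquation c (F + G) = localEquation c F + localEquation c G := by
  funext j l
  simp [localEquation]

theorem localEquation_smul (c : ℕ → ℂ) (z : ℂ) (F : MvPolynomial (Fin 3) ℂ) :
    localEquation c (z • F) = z • localEquation c F := by
  funext j l
  simp only [localEquation, Pi.smul_apply]
  rw [map_smul, Polynomial.coeff_smul, map_smul]

theorem Mult.add {r : ℕ} {f g : Series} (hf : Mult r f) (hg : Mult r g) : Mult r (f + g) := by
  intro j l h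
  simp [hf j l h, hg j l h]

theorem Mult.smul {r : ℕ} {f : Series} (z : ℂ) (hf : Mult r f) : Mult r (z • f) := by
  intro j l h
  simp [hf j l h]

theorem blowX_add (r : ℕ) (f g : Series) : blowX r (f + g) = blowX r f + blowX r g := by
  funext j l
  simp only [blowX, Pi.add_apply]
  split_ifs <;> simp

theorem blowY_add (r : ℕ) (f g : Series) : blowY r (f + g) = blowY r f + blowY r g := by
  funext j l
  simp only [blowY, Pi.add_apply]
  split_ifs <;> simp

theorem blowX_smul (r : ℕ) (z : ℂ) (f : Series) : blowX r (z • f) = z • blowX r f := by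
  funext j l
  simp only [blowX, Pi.smul_apply]
  split_ifs <;> simp

theorem blowY_smul (r : ℕ) (z : ℂ) (f : Series) : blowY r (z • f) = z • blowY r f := by
  funext j l
  simp only [blowY, Pi.smul_apply]
  split_ifs <;> simp

theorem Passes.add : ∀ {s : List Bool} {r : ℕ → ℕ} {f g : Series},
    Passes s r f → Passes s r g → Passes s r (f + g)
  | [], _, _, _, hf, hg => Mult.add hf hg
  | true :: _, _, _, _, hf, hg => ⟨Mult.add hf.1 hg.1, by
      rw [blowX_add]; exact Passes.add hf.2 hg.2⟩
  | false :: _, _, _, _, hf, hg => ⟨Mult.add hf.1 hg.1, by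
      rw [blowY_add]; exact Passes.add hf.2 hg.2⟩

theorem Passes.smul : ∀ {s : List Bool} {r : ℕ → ℕ} {f : Series} (z : ℂ),
    Passes s r f → Passes s r (z • f)
  | [], _, _, z, hf => Mult.smul z hf
  | true :: _, _, _, z, hf => ⟨Mult.smul z hf.1, by
      rw [blowX_smul]; exact Passes.smul z hf.2⟩
  | false :: _, _, _, z, hf => ⟨Mult.smul z hf.1, by
      rw [blowY_smul]; exact Passes.smul z hf.2⟩

theorem Passes.zero : ∀ (s : List Bool) (r : ℕ → ℕ), Passes s r 0
  | [], _ => fun _ _ _ => rfl
  | true :: s, r => ⟨fun _ _ _ => rfl, by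
      have : blowX (r 0) 0 = 0 := by funext j l; simp [blowX]
      rw [this]; exact Passes.zero s _⟩
  | false :: s, r => ⟨fun _ _ _ => rfl, by
      have : blowY (r 0) 0 = 0 := by funext j l; simp [blowY]
      rw [this]; exact Passes.zero s _⟩

/-- The space of forms of degree `d` through the weighted configuration: the `i`-th chain starts
at the point `(a (i, 0) : a (i, 1) : 1)` and its free points lie on the germ with coefficients
`a (i, 1), a (i, 2), ...`; its shape is the list `s i` and its multiplicities are
`r i 0, r i 1, ...`. -/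
noncomputable def forms {n : ℕ} (s : Fin n → List Bool) (r : Fin n → ℕ → ℕ)
    (a : Fin n × ℕ → ℂ) (d : ℕ) : Submodule ℂ (MvPolynomial (Fin 3) ℂ) where
  carrier := {F | F.IsHomogeneous d ∧
    ∀ i, Passes (s i) (r i) (localEquation (fun k => a (i, k)) F)}
  add_mem' := by
    intro F G hF hG
    refine ⟨hF.1.add hG.1, fun i => ?_⟩
    rw [localEquation_add]
    exact (hF.2 i).add (hG.2 i)
  zero_mem' := by
    refine ⟨MvPolynomial.isHomogeneous_zero _ _ _, fun i => ?_⟩
    have : localEquation (fun k => a (i, k)) 0 = 0 := by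
      funext j l
      simp [localEquation]
    rw [this]
    exact Passes.zero _ _
  smul_mem' := by
    intro z F hF
    refine ⟨?_, fun i => ?_⟩
    · exact (MvPolynomial.homogeneousSubmodule (Fin 3) ℂ d).smul_mem z hF.1
    · rw [localEquation_smul]
      exact (hF.2 i).smul z

/-! ### weights -/

theorem weight_zero (s : List Bool) (α β : ℝ) : weight s α β 0 = min α β := by
  cases s with
  | nil => rfl
  | cons b s => cases b <;> rfl

theorem weight_true (s : List Bool) (α β : ℝ) (k : ℕ) :
    weight (true :: s) α β (k + 1) = weight s α (max (β - α) 0) k := rfl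

theorem weight_false (s : List Bool) (α β : ℝ) (k : ℕ) :
    weight (false :: s) α β (k + 1) = weight s (max (α - β) 0) β k := rfl

theorem weight_nonneg : ∀ (s : List Bool) {α β : ℝ}, 0 ≤ α → 0 ≤ β → ∀ k : ℕ, 0 ≤ weight s α β k
  | s, α, β, hα, hβ, 0 => by rw [weight_zero]; exact le_min hα hβ
  | [], _, _, _, _, _ + 1 => le_rfl
  | true :: s, _, _, hα, _, k + 1 => weight_nonneg s hα (le_max_right _ _) k
  | false :: s, _, _, _, hβ, k + 1 => weight_nonneg s (le_max_right _ _) hβ k

theorem weight_le : ∀ (s : List Bool) {α β : ℝ}, 0 ≤ α → 0 ≤ β → ∀ k : ℕ, weight s α β k ≤ α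
  | s, α, β, hα, hβ, 0 => by rw [weight_zero]; exact min_le_left _ _
  | [], _, _, hα, _, _ + 1 => hα
  | true :: s, _, _, hα, _, k + 1 => weight_le s hα (le_max_right _ _) k
  | false :: s, α, β, hα, hβ, k + 1 =>
      (weight_le s (le_max_right _ _) hβ k).trans (max_le (by linarith) hα)

theorem sum_weight_sq : ∀ (s : List Bool) {α β : ℝ}, 0 ≤ α → 0 ≤ β →
    ∑ k ∈ range (s.length + 1), weight s α β k ^ 2 ≤ α * β
  | [], α, β, hα, hβ => by
      simp only [List.length_nil, zero_add, sum_range_one, weight_zero]
      rcases le_total α β with h | h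
      · rw [min_eq_left h]; nlinarith
      · rw [min_eq_right h]; nlinarith
  | true :: s, α, β, hα, hβ => by
      rw [List.length_cons, sum_range_succ']
      simp only [weight_true, weight_zero]
      have h := sum_weight_sq s hα (le_max_right (β - α) 0)
      rcases le_total α β with h' | h'
      · rw [min_eq_left h']
        have e : max (β - α) 0 = β - α := max_eq_left (by linarith)
        rw [e] at h ⊢
        nlinarith
      · rw [min_eq_right h']
        have e : max (β - α) 0 = 0 := max_eq_right (by linarith)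
        rw [e] at h ⊢
        nlinarith
  | false :: s, α, β, hα, hβ => by
      rw [List.length_cons, sum_range_succ']
      simp only [weight_false, weight_zero]
      have h := sum_weight_sq s (le_max_right (α - β) 0) hβ
      rcases le_total α β with h' | h'
      · rw [min_eq_left h']
        have e : max (α - β) 0 = 0 := max_eq_right (by linarith)
        rw [e] at h ⊢
        nlinarith
      · rw [min_eq_right h']
        have e : max (α - β) 0 = α - β := max_eq_left (by linarith)
        rw [e] at h ⊢
        nlinarith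

/-- a curve through the chain has large value for every monomial valuation -/
theorem Passes.bound : ∀ {s : List Bool} {r : ℕ → ℕ} {f : Series}, Passes s r f →
    ∀ {α β : ℝ}, 0 ≤ α → 0 ≤ β → ∀ {j l : ℕ}, f j l ≠ 0 →
      ∑ k ∈ range (s.length + 1), weight s α β k * r k ≤ α * j + β * l
  | [], r, f, hf, α, β, hα, hβ, j, l, h => by
      have h1 : r 0 ≤ j + l := by
        by_contra hlt
        exact h (hf j l (not_le.1 hlt))
      have h1' : (r 0 : ℝ) ≤ j + l := by exact_mod_cast h1
      simp only [List.length_nil, zero_add, sum_range_one, weight_zero]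
      have hj : (0 : ℝ) ≤ j := Nat.cast_nonneg _
      have hl : (0 : ℝ) ≤ l := Nat.cast_nonneg _
      have hm1 : min α β ≤ α := min_le_left _ _
      have hm2 : min α β ≤ β := min_le_right _ _
      have hm0 : 0 ≤ min α β := le_min hα hβ
      calc min α β * (r 0 : ℝ) ≤ min α β * (j + l) := mul_le_mul_of_nonneg_left h1' hm0
        _ = min α β * j + min α β * l := by ring
        _ ≤ α * j + β * l := add_le_add (mul_le_mul_of_nonneg_right hm1 hj)
          (mul_le_mul_of_nonneg_right hm2 hl)
  | true :: s, r, f, hf, α, β, hα, hβ, j, l, h => by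
      have h1 : r 0 ≤ j + l := by
        by_contra hlt
        exact h (hf.1 j l (not_le.1 hlt))
      have h2 : blowX (r 0) f (j + l - r 0) l ≠ 0 := by
        have e : j + l - r 0 + r 0 = j + l := Nat.sub_add_cancel h1
        have e2 : j + l - l = j := Nat.add_sub_cancel _ _
        simp only [blowX]
        rw [e, if_pos (Nat.le_add_left l j), e2]
        exact h
      have h3 := Passes.bound hf.2 hα (le_max_right (β - α) 0) h2
      rw [List.length_cons, sum_range_succ']
      simp only [weight_true, weight_zero]
      have h4 : ((j + l - r 0 : ℕ) : ℝ) = j + l - r 0 := by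
        rw [Nat.cast_sub h1]; push_cast; ring
      rw [h4] at h3
      have h1' : (r 0 : ℝ) ≤ j + l := by exact_mod_cast h1
      have hj : (0 : ℝ) ≤ j := Nat.cast_nonneg _
      have hl : (0 : ℝ) ≤ l := Nat.cast_nonneg _
      rcases le_total α β with h' | h'
      · rw [min_eq_left h']
        have e : max (β - α) 0 = β - α := max_eq_left (by linarith)
        rw [e] at h3 ⊢
        linarith
      · rw [min_eq_right h']
        have e : max (β - α) 0 = 0 := max_eq_right (by linarith)
        have h5 : ∑ k ∈ range (s.length + 1), weight s α (max (β - α) 0) k ^ 2 ≤ 0 := by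
          have := sum_weight_sq s hα (le_max_right (β - α) 0)
          rw [e] at this ⊢
          linarith
        have h6 : ∀ k ∈ range (s.length + 1), weight s α (max (β - α) 0) k = 0 := by
          intro k hk
          have h7 : weight s α (max (β - α) 0) k ^ 2 ≤ 0 :=
            (single_le_sum (f := fun k => weight s α (max (β - α) 0) k ^ 2)
              (fun k _ => sq_nonneg _) hk).trans h5
          exact pow_eq_zero_iff (two_ne_zero) |>.1 (le_antisymm h7 (sq_nonneg _))
        have h8 : ∑ k ∈ range (s.length + 1), weight s α (max (β - α) 0) k * (r (k + 1) : ℝ) = 0 :=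
          sum_eq_zero fun k hk => by rw [h6 k hk, zero_mul]
        rw [h8]
        nlinarith
  | false :: s, r, f, hf, α, β, hα, hβ, j, l, h => by
      have h1 : r 0 ≤ j + l := by
        by_contra hlt
        exact h (hf.1 j l (not_le.1 hlt))
      have h2 : blowY (r 0) f j (j + l - r 0) ≠ 0 := by
        have e : j + l - r 0 + r 0 = j + l := Nat.sub_add_cancel h1
        have e2 : j + l - j = l := Nat.add_sub_cancel_left _ _
        simp only [blowY]
        rw [e, if_pos (Nat.le_add_right j l), e2]
        exact h
      have h3 := Passes.bound hf.2 (le_max_right (α - β) 0) hβ h2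
      rw [List.length_cons, sum_range_succ']
      simp only [weight_false, weight_zero]
      have h4 : ((j + l - r 0 : ℕ) : ℝ) = j + l - r 0 := by
        rw [Nat.cast_sub h1]; push_cast; ring
      rw [h4] at h3
      have h1' : (r 0 : ℝ) ≤ j + l := by exact_mod_cast h1
      have hj : (0 : ℝ) ≤ j := Nat.cast_nonneg _
      have hl : (0 : ℝ) ≤ l := Nat.cast_nonneg _
      rcases le_total α β with h' | h'
      · rw [min_eq_left h']
        have e : max (α - β) 0 = 0 := max_eq_right (by linarith)
        have h5 : ∑ k ∈ range (s.length + 1), weight s (max (α - β) 0) β k ^ 2 ≤ 0 := by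
          have := sum_weight_sq s (le_max_right (α - β) 0) hβ
          rw [e] at this ⊢
          linarith
        have h6 : ∀ k ∈ range (s.length + 1), weight s (max (α - β) 0) β k = 0 := by
          intro k hk
          have h7 : weight s (max (α - β) 0) β k ^ 2 ≤ 0 :=
            (single_le_sum (f := fun k => weight s (max (α - β) 0) β k ^ 2)
              (fun k _ => sq_nonneg _) hk).trans h5
          exact pow_eq_zero_iff (two_ne_zero) |>.1 (le_antisymm h7 (sq_nonneg _))
        have h8 : ∑ k ∈ range (s.length + 1), weight s (max (α - β) 0) β k * (r (k + 1) : ℝ) = 0 :=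
          sum_eq_zero fun k hk => by rw [h6 k hk, zero_mul]
        rw [h8]
        nlinarith
      · rw [min_eq_right h']
        have e : max (α - β) 0 = α - β := max_eq_left (by linarith)
        rw [e] at h3 ⊢
        linarith

theorem two_mul_choose (m : ℕ) : 2 * (m + 1).choose 2 = m * (m + 1) := by
  have h := Nat.add_one_mul_choose_eq m 1
  rw [Nat.choose_one_right] at h
  linarith

/-- The numerical condition: for some set `I` of chains and some real slopes `t i ≥ 1`, `i ∈ I`,
of sum `T ≥ 9`, the class of the curves of degree `d` through the weighted configuration is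
negative on the class `√T * L - ∑ weight * E`. -/
def Negative {n : ℕ} (s : Fin n → List Bool) (r : Fin n → ℕ → ℕ) (d : ℕ) : Prop :=
  ∃ (I : Finset (Fin n)) (t : Fin n → ℝ), (∀ i ∈ I, 1 ≤ t i) ∧ 9 ≤ ∑ i ∈ I, t i ∧
    (d : ℝ) * √(∑ i ∈ I, t i) <
      ∑ i ∈ I, ∑ k ∈ range ((s i).length + 1), weight (s i) 1 (t i) k * r i k

/-- emptiness off a hypersurface, one degree -/
theorem empty_of_negative {n : ℕ} (s : Fin n → List Bool) (r : Fin n → ℕ → ℕ) (d : ℕ) :
    ∃ D : MvPolynomial (Fin n × ℕ) ℂ, D ≠ 0 ∧ (Negative s r d →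
      ∀ a : Fin n × ℕ → ℂ, MvPolynomial.eval a D ≠ 0 → forms s r a d = ⊥) := by
  classical
  by_cases hneg : Negative s r d
  swap
  · exact ⟨1, one_ne_zero, fun h => absurd h hneg⟩
  obtain ⟨I, t, ht, hT, hd⟩ := hneg
  obtain ⟨c, hc⟩ : ∃ c : I → ℝ, ∀ i : I, c i =
      ∑ k ∈ range ((s i).length + 1), weight (s i) 1 (t i) k * r i k := ⟨_, fun _ => rfl⟩
  have hT' : 9 ≤ ∑ i : I, t i := by rw [sum_coe_sort I t]; exact hT
  have hd' : (d : ℝ) * √(∑ i : I, t i) < ∑ i, c i := by
    rw [sum_coe_sort I t]
    refine hd.trans_le (le_of_eq ?_)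
    rw [← sum_coe_sort I]
    exact sum_congr rfl fun i _ => (hc i).symm
  obtain ⟨D, hD, hD'⟩ := Pool.Agent.TH181.QV.generic (t := fun i : I => t i) (c := c)
    (fun i => ht i i.2)
    (Pool.Agent.TH308.QM.EmpW_plane (t := fun i : I => t i)
      (fun i : I => (zero_le_one.trans (ht i.1 i.2) : (0 : ℝ) ≤ t i.1)) hT' hd')
  have hinj : Function.Injective (fun p : I × ℕ => ((p.1 : Fin n), p.2)) := by
    rintro ⟨⟨i, hi⟩, k⟩ ⟨⟨i', hi'⟩, k'⟩ h
    simp only [Prod.mk.injEq] at h
    obtain ⟨rfl, rfl⟩ := h
    rfl
  refine ⟨MvPolynomial.rename (fun p : I × ℕ => ((p.1 : Fin n), p.2))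
    (MvPolynomial.map (algebraMap ℚ ℂ) D), ?_, ?_⟩
  · intro h0
    have h1 := MvPolynomial.rename_injective _ hinj (h0.trans (map_zero _).symm)
    exact hD (MvPolynomial.map_injective _ (algebraMap ℚ ℂ).injective (h1.trans (map_zero _).symm))
  · intro _ a ha
    rw [MvPolynomial.eval_rename, MvPolynomial.eval_map, ← MvPolynomial.aeval_def] at ha
    rw [eq_bot_iff]
    intro F hF
    rw [Submodule.mem_bot]
    refine hD' _ ha F hF.1 ?_
    intro i j l hjl
    by_contra hne
    have hti : (0 : ℝ) ≤ t i.1 := zero_le_one.trans (ht i.1 i.2)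
    have hb := (hF.2 i.1).bound zero_le_one hti (j := j) (l := l) hne
    rw [hc, ← one_mul (j : ℝ)] at hjl
    exact absurd hjl (not_lt.2 hb)

/-- the numerical condition forces the expected dimension to be zero -/
theorem Negative.count {n : ℕ} {s : Fin n → List Bool} {r : Fin n → ℕ → ℕ} {d : ℕ}
    (h : Negative s r d) :
    d ≤ ∑ i, ∑ k ∈ range ((s i).length + 1), r i k ∧
    (d + 2).choose 2 ≤ ∑ i, ∑ k ∈ range ((s i).length + 1), (r i k + 1).choose 2 := by
  classical
  obtain ⟨I, t, ht, hT, hd⟩ := h
  have ht0 : ∀ i ∈ I, (0 : ℝ) < t i := fun i hi => zero_lt_one.trans_le (ht i hi)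
  obtain ⟨w, hw⟩ : ∃ w : Fin n → ℝ, ∀ i, w i =
      ∑ k ∈ range ((s i).length + 1), weight (s i) 1 (t i) k * r i k := ⟨_, fun _ => rfl⟩
  simp_rw [← hw] at hd
  obtain ⟨Q, hQ⟩ : ∃ Q : ℕ, Q = ∑ i, ∑ k ∈ range ((s i).length + 1), r i k := ⟨_, rfl⟩
  obtain ⟨R, hR⟩ : ∃ R : ℕ, R = ∑ i, ∑ k ∈ range ((s i).length + 1), r i k ^ 2 := ⟨_, rfl⟩
  have hwQ : ∑ i ∈ I, w i ≤ Q := by
    rw [hQ]
    push_cast
    refine le_trans ?_ (sum_le_univ_sum_of_nonneg (s := I) fun i =>
      sum_nonneg fun k _ => Nat.cast_nonneg _)
    refine sum_le_sum fun i hi => ?_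
    rw [hw]
    refine sum_le_sum fun k _ => ?_
    calc weight (s i) 1 (t i) k * (r i k : ℝ) ≤ 1 * (r i k : ℝ) :=
          mul_le_mul_of_nonneg_right (weight_le (s i) zero_le_one (ht0 i hi).le k)
            (Nat.cast_nonneg _)
      _ = r i k := one_mul _
  have hw0 : 0 ≤ ∑ i ∈ I, w i := by
    refine sum_nonneg fun i hi => ?_
    rw [hw]
    exact sum_nonneg fun k _ => mul_nonneg (weight_nonneg (s i) zero_le_one (ht0 i hi).le k)
      (Nat.cast_nonneg _)
  have hwR2 : (∑ i ∈ I, w i) ^ 2 ≤ (∑ i ∈ I, t i) * R := by
    have h1 : (∑ i ∈ I, w i) ^ 2 / (∑ i ∈ I, t i) ≤ ∑ i ∈ I, w i ^ 2 / t i :=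
      sq_sum_div_le_sum_sq_div _ _ fun i hi => ht0 i hi
    have h2 : ∑ i ∈ I, w i ^ 2 / t i ≤ R := by
      rw [hR]
      push_cast
      refine le_trans ?_ (sum_le_univ_sum_of_nonneg (s := I) fun i =>
        sum_nonneg fun k _ => by positivity)
      refine sum_le_sum fun i hi => ?_
      rw [div_le_iff₀ (ht0 i hi), hw]
      have h3 := sum_mul_sq_le_sq_mul_sq (range ((s i).length + 1))
        (fun k => weight (s i) 1 (t i) k) (fun k => (r i k : ℝ))
      have h4 := sum_weight_sq (s i) zero_le_one (ht0 i hi).le
      rw [one_mul] at h4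
      refine h3.trans ?_
      rw [mul_comm]
      exact mul_le_mul_of_nonneg_left h4 (sum_nonneg fun k _ => sq_nonneg _)
    rw [div_le_iff₀ (by linarith)] at h1
    nlinarith [h1, h2, hT]
  have h3 : (3 : ℝ) ≤ √(∑ i ∈ I, t i) := by
    rw [show (3 : ℝ) = √9 by rw [show (9 : ℝ) = 3 ^ 2 by norm_num, Real.sqrt_sq (by norm_num)]]
    exact Real.sqrt_le_sqrt hT
  have hss : √(∑ i ∈ I, t i) ^ 2 = ∑ i ∈ I, t i := Real.sq_sqrt (by linarith)
  have hdR : (0 : ℝ) ≤ d := Nat.cast_nonneg _
  have h3d : 3 * d + 1 ≤ Q := by
    have : (3 : ℝ) * d < Q := by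
      calc (3 : ℝ) * d = d * 3 := mul_comm _ _
        _ ≤ d * √(∑ i ∈ I, t i) := mul_le_mul_of_nonneg_left h3 hdR
        _ < ∑ i ∈ I, w i := hd
        _ ≤ Q := hwQ
    exact_mod_cast this
  have hd2 : d ^ 2 + 1 ≤ R := by
    have h5 : ((d : ℝ) * √(∑ i ∈ I, t i)) ^ 2 < (∑ i ∈ I, w i) ^ 2 :=
      pow_lt_pow_left₀ hd (by positivity) (by norm_num)
    rw [mul_pow, hss] at h5
    have h6 : (d : ℝ) ^ 2 * ∑ i ∈ I, t i < R * ∑ i ∈ I, t i := by
      rw [mul_comm (R : ℝ)]; exact h5.trans_le hwR2
    have h7 : (d : ℝ) ^ 2 < R := lt_of_mul_lt_mul_right h6 (by linarith)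
    exact_mod_cast h7
  have hA := two_mul_choose (d + 1)
  have hB : 2 * ∑ i, ∑ k ∈ range ((s i).length + 1), (r i k + 1).choose 2 = R + Q := by
    rw [hR, hQ, ← sum_add_distrib, mul_sum]
    refine sum_congr rfl fun i _ => ?_
    rw [mul_sum, ← sum_add_distrib]
    refine sum_congr rfl fun k _ => ?_
    rw [two_mul_choose]
    ring
  refine ⟨by omega, ?_⟩
  have : 2 * (d + 2).choose 2 ≤
      2 * ∑ i, ∑ k ∈ range ((s i).length + 1), (r i k + 1).choose 2 := by
    rw [hB]
    have e : 2 * (d + 2).choose 2 = (d + 1) * (d + 1 + 1) := hA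
    rw [e]
    nlinarith [h3d, hd2]
  omega

/-- **Curves through general weighted chains of infinitely near points.** -/
theorem result (n : ℕ) (s : Fin n → List Bool) (r : Fin n → ℕ → ℕ) :
    ∃ D : MvPolynomial (Fin n × ℕ) ℂ, D ≠ 0 ∧
      ∀ a : Fin n × ℕ → ℂ, MvPolynomial.eval a D ≠ 0 → ∀ d : ℕ, Negative s r d →
        forms s r a d = ⊥ ∧
        (Module.finrank ℂ (forms s r a d) : ℤ) =
          max 0 (((d + 2).choose 2 : ℤ) -
            ∑ i, ∑ k ∈ range ((s i).length + 1), ((r i k + 1).choose 2 : ℤ)) := by
  classical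
  choose D hD0 hD using fun d : ℕ => empty_of_negative s r d
  refine ⟨∏ d ∈ range ((∑ i, ∑ k ∈ range ((s i).length + 1), r i k) + 1), D d,
    prod_ne_zero_iff.2 fun d _ => hD0 d, ?_⟩
  intro a ha d hneg
  obtain ⟨hdQ, hC⟩ := hneg.count
  have hda : MvPolynomial.eval a (D d) ≠ 0 := by
    rw [map_prod] at ha
    exact (prod_ne_zero_iff.1 ha) d (mem_range.2 (by omega))
  have hbot : forms s r a d = ⊥ := hD d hneg a hda
  refine ⟨hbot, ?_⟩
  rw [hbot, finrank_bot, Nat.cast_zero, eq_comm, max_eq_left_iff, sub_nonpos]
  exact_mod_cast hC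

end Pool.Agent.Results.MP_ad39f2_ag.GeneralChains
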